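import Pool.Agent.P.MP_12cd8a_lc.Main

namespace Pool.Agent.Results.MP_12cd8a_lc.RankUnique

open Pool.Agent.P.MP_12cd8a_lc

/-- On every Polish space, an ordinal-valued map with properties (P1)-(P4) on the bounded
Baire class 1 functions agrees essentially with the separation rank `α₁`. -/
theorem result {X : Type*} [TopologicalSpace X] [PolishSpace X] (ρ : (X → ℝ) → Ordinal.{0})
    (P1 : ∀ A : Set X, IsGδ A → IsGδ Aᶜ →
      Approx (ρ (A.indicator fun _ => (1 : ℝ))) (alphaSets A Aᶜ))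
    (P2a : ∀ (c : ℝ) (f : X → ℝ), c ≠ 0 → BoundedBaireOne f → Approx (ρ (c • f)) (ρ f))
    (P2b : ∀ f g : X → ℝ, BoundedBaireOne f → BoundedBaireOne g →
      Lesssim (ρ (f + g)) (max (ρ f) (ρ g)))
    (P3 : ∀ (fs : ℕ → X → ℝ) (f : X → ℝ), (∀ n, BoundedBaireOne (fs n)) → BoundedBaireOne f →
      TendstoUniformly fs f Filter.atTop → Lesssim (ρ f) (⨆ n, ρ (fs n)))
    (P4 : ∀ (h : ℝ → ℝ) (K : NNReal) (f : X → ℝ), LipschitzWith K h → BoundedBaireOne f →
      Lesssim (ρ (h ∘ f)) (ρ f)) :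
    ∀ f : X → ℝ, BoundedBaireOne f → Approx (ρ f) (alphaFun f) :=
  fun f hf => main ρ P1 P2a P2b P3 P4 f hf

end Pool.Agent.Results.MP_12cd8a_lc.RankUnique
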